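import Pool.Agent.Lib.helper9.BorsukUlam

namespace Pool.Agent.H.MP_d738f8_co

open Finset Classical

def Mat {α : Type} (E : Finset α → Prop) (U : Finset α) (p : ℕ) : Prop :=
  ∃ M : Finset (Finset α), M.card = p ∧ (∀ e ∈ M, E e ∧ e ⊆ U) ∧
    ∀ e ∈ M, ∀ f ∈ M, e ≠ f → Disjoint e f

variable {α : Type}

theorem Mat.zero (E : Finset α → Prop) (U : Finset α) : Mat E U 0 := ⟨∅, rfl, by simp, by simp⟩

theorem Mat.anti {E : Finset α → Prop} {U : Finset α} {p p' : ℕ} (h : Mat E U p) (hp : p' ≤ p) :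
    Mat E U p' := by
  obtain ⟨M, h1, h2, h3⟩ := h
  obtain ⟨M', k1, k2⟩ := Finset.exists_subset_card_eq (s := M) (n := p') (by omega)
  exact ⟨M', k2, fun e he => h2 e (k1 he), fun e he f hf => h3 e (k1 he) f (k1 hf)⟩

theorem Mat.mono {E E' : Finset α → Prop} {U U' : Finset α} {p : ℕ} (h : Mat E U p)
    (hE : ∀ e, E e → e ⊆ U → E' e) (hU : U ⊆ U') : Mat E' U' p := by
  obtain ⟨M, h1, h2, h3⟩ := h
  exact ⟨M, h1, fun e he => ⟨hE e (h2 e he).1 (h2 e he).2, (h2 e he).2.trans hU⟩, h3⟩

theorem Mat.union {E : Finset α → Prop} (hE : ∀ e, E e → e.Nonempty) {U U' : Finset α} {p p' : ℕ}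
    (h : Mat E U p) (h' : Mat E U' p') (hd : Disjoint U U') : Mat E (U ∪ U') (p + p') := by
  obtain ⟨M, h1, h2, h3⟩ := h
  obtain ⟨M', k1, k2, k3⟩ := h'
  have x : ∀ e ∈ M, ∀ f ∈ M', Disjoint e f := fun e he f hf =>
    hd.mono (h2 e he).2 (k2 f hf).2
  refine ⟨M ∪ M', ?_, ?_, ?_⟩
  · rw [Finset.card_union_of_disjoint, h1, k1]
    refine Finset.disjoint_left.2 fun e he hf => ?_
    have := x e he e hf
    rw [disjoint_self] at this
    exact (hE e (h2 e he).1).ne_empty this
  · intro e he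
    rcases Finset.mem_union.1 he with he | he
    · exact ⟨(h2 e he).1, (h2 e he).2.trans Finset.subset_union_left⟩
    · exact ⟨(k2 e he).1, (k2 e he).2.trans Finset.subset_union_right⟩
  · intro e he f hf hne
    rcases Finset.mem_union.1 he with he | he <;> rcases Finset.mem_union.1 hf with hf | hf
    · exact h3 e he f hf hne
    · exact x e he f hf
    · exact (x f hf e he).symm
    · exact k3 e he f hf hne

theorem Mat.biUnion {E : Finset α → Prop} (hE : ∀ e, E e → e.Nonempty) {ι : Type} (Z : Finset ι)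
    (U : ι → Finset α) (p : ι → ℕ) (h : ∀ z ∈ Z, Mat E (U z) (p z))
    (hd : ∀ z ∈ Z, ∀ w ∈ Z, z ≠ w → Disjoint (U z) (U w)) :
    Mat E (Z.biUnion U) (∑ z ∈ Z, p z) := by
  induction Z using Finset.induction_on with
  | empty => simpa using Mat.zero E ∅
  | insert a Z ha ih =>
    rw [Finset.biUnion_insert, Finset.sum_insert ha]
    refine Mat.union hE (h a (by simp)) (ih (fun z hz => h z (by simp [hz]))
      (fun z hz w hw => hd z (by simp [hz]) w (by simp [hw]))) ?_
    rw [Finset.disjoint_biUnion_right]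
    exact fun z hz => hd a (by simp) z (by simp [hz]) (fun e => ha (e ▸ hz))

theorem kneser (q r : ℕ) (hr : 1 ≤ r) (U : Finset α) (c : Finset α → Fin (q + 1))
    (hU : 2 * r + q ≤ U.card) : ∃ j, Mat (fun e => e.card = r ∧ c e = j) U 2 := by
  obtain ⟨w, hw⟩ := Set.countable_iff_exists_injOn.1 U.countable_toSet
  let val : (Fin (q + 2) → ℝ) → α → ℝ := fun p a => ∑ i, p i * (w a : ℝ) ^ (i : ℕ)
  have vneg : ∀ p a, val (-p) a = -val p a := fun p a => by simp [val]
  let g : Fin (q + 1) → (Fin (q + 2) → ℝ) → ℝ := fun j p =>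
    ∑ A ∈ U.powersetCard r with c A = j, ∏ a ∈ A, max (val p a) 0
  have gc : ∀ j, Continuous (g j) := fun j => by simp only [g, val]; fun_prop
  obtain ⟨p, hp, h0⟩ := Pool.Agent.Lib.helper9.BorsukUlam.borsuk_ulam
    (E := Fin (q + 2) → ℝ) (F := Fin (q + 1) → ℝ) (Or.inr (by simp))
    (fun p j => g j p - g j (-p))
    (continuous_pi (fun j => (gc j).sub ((gc j).comp continuous_neg))).continuousOn
    (fun p _ => by funext j; simp)
  have key : ∀ p : Fin (q + 2) → ℝ, (∀ j, g j p = g j (-p)) →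
      r ≤ (U.filter fun a => 0 < val p a).card →
      ∃ j, Mat (fun e => e.card = r ∧ c e = j) U 2 := by
    intro p hp hc
    obtain ⟨A, hA1, hA2⟩ := Finset.exists_subset_card_eq hc
    have hAU : A ⊆ U := hA1.trans (Finset.filter_subset _ _)
    have pos : 0 < g (c A) p := by
      refine Finset.sum_pos' (fun B _ => Finset.prod_nonneg fun a _ => le_max_right _ _)
        ⟨A, by simp [Finset.mem_powersetCard, hAU, hA2], Finset.prod_pos fun a ha => ?_⟩
      exact lt_max_of_lt_left (Finset.mem_filter.1 (hA1 ha)).2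
    rw [hp] at pos
    obtain ⟨B, hB, hB0⟩ := Finset.exists_ne_zero_of_sum_ne_zero pos.ne'
    simp only [Finset.mem_filter, Finset.mem_powersetCard] at hB
    have hd : Disjoint A B := by
      refine Finset.disjoint_left.2 fun a ha hb => hB0 (Finset.prod_eq_zero hb ?_)
      have := (Finset.mem_filter.1 (hA1 ha)).2
      rw [vneg]
      exact max_eq_right (by linarith)
    have hne : A ≠ B := by
      rintro rfl
      rw [disjoint_self] at hd
      rw [hd] at hA2
      simp at hA2; omega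
    refine ⟨c A, {A, B}, Finset.card_pair hne, ?_, ?_⟩
    · simp [hA2, hAU, hB.1.1, hB.1.2, hB.2]
    · simp only [Finset.mem_insert, Finset.mem_singleton]
      rintro e (rfl | rfl) f (rfl | rfl) h
      · exact absurd rfl h
      · exact hd
      · exact hd.symm
      · exact absurd rfl h
  have hz : (U.filter fun a => val p a = 0).card < q + 2 := by
    by_contra hn
    obtain ⟨Z, hZ1, hZ2⟩ := Finset.exists_subset_card_eq (not_lt.1 hn)
    let e := (Finset.equivFinOfCardEq hZ2).symm
    have : p = 0 := by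
      refine Matrix.eq_zero_of_forall_index_sum_mul_pow_eq_zero
        (f := fun i => (w (e i) : ℝ)) (fun i j h => ?_)
        (fun j => (Finset.mem_filter.1 (hZ1 (e j).2)).2)
      have := hw (Finset.mem_filter.1 (hZ1 (e i).2)).1 (Finset.mem_filter.1 (hZ1 (e j).2)).1
        (Nat.cast_injective (R := ℝ) h)
      exact e.injective (Subtype.ext this)
    simp [this] at hp
  have hg : ∀ j, g j p = g j (-p) := fun j => sub_eq_zero.1 (congrFun h0 j)
  have cov : U.card ≤ (U.filter fun a => 0 < val p a).card +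
      (U.filter fun a => 0 < val (-p) a).card + (U.filter fun a => val p a = 0).card := by
    refine le_trans (Finset.card_le_card ?_) ((Finset.card_union_le _ _).trans
      (Nat.add_le_add_right (Finset.card_union_le _ _) _))
    intro a ha
    simp only [Finset.mem_union, Finset.mem_filter, ha, true_and, vneg]
    rcases lt_trichotomy (val p a) 0 with h | h | h
    · exact Or.inl (Or.inr (by linarith))
    · exact Or.inr h
    · exact Or.inl (Or.inl h)
  by_cases h1 : r ≤ (U.filter fun a => 0 < val p a).card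
  · exact key p hg h1
  · exact key (-p) (fun j => by rw [neg_neg, hg]) (by omega)

theorem afl_pow (q a : ℕ) : ∀ r, 1 ≤ r → ∀ (U : Finset α) (c : Finset α → Fin (q + 1)),
    2 ^ a * r + q * (2 ^ a - 1) ≤ U.card → ∃ j, Mat (fun e => e.card = r ∧ c e = j) U (2 ^ a) := by
  induction a with
  | zero =>
    intro r hr U c hU
    obtain ⟨A, h1, h2⟩ := Finset.exists_subset_card_eq (s := U) (n := r) (by simpa using hU)
    exact ⟨c A, {A}, rfl, by simp [h1, h2], by simp⟩
  | succ a ih =>
    intro r hr U c hU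
    have one : 1 ≤ 2 ^ a := Nat.one_le_two_pow
    have ex : ∀ B : Finset α, ∃ j, B.card = 2 ^ a * r + q * (2 ^ a - 1) →
        Mat (fun e => e.card = r ∧ c e = j) B (2 ^ a) := by
      intro B
      by_cases h : B.card = 2 ^ a * r + q * (2 ^ a - 1)
      · obtain ⟨j, hj⟩ := ih r hr B c h.ge
        exact ⟨j, fun _ => hj⟩
      · exact ⟨0, fun e => absurd e h⟩
    choose c' hc' using ex
    obtain ⟨j, M, h1, h2, h3⟩ := kneser q (2 ^ a * r + q * (2 ^ a - 1)) (by nlinarith) U c' (by
      refine le_trans (le_of_eq ?_) hU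
      obtain ⟨b, hb⟩ : ∃ b, 2 ^ a = b + 1 := ⟨2 ^ a - 1, by omega⟩
      rw [pow_succ, hb, show (b + 1) * 2 - 1 = 2 * b + 1 by omega, Nat.add_sub_cancel]
      ring)
    have := Mat.biUnion (E := fun e => e.card = r ∧ c e = j)
      (fun e he => Finset.card_pos.1 (by omega)) M id (fun _ => 2 ^ a)
      (fun B hB => (h2 B hB).1.2 ▸ hc' B (h2 B hB).1.1) h3
    rw [Finset.sum_const, h1, smul_eq_mul, ← pow_succ'] at this
    exact ⟨j, this.mono (fun e h _ => h) (Finset.biUnion_subset.2 fun B hB => (h2 B hB).2)⟩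

theorem afl_asym (q a r m : ℕ) (hr : 1 ≤ r) (t : Fin (q + 1) → ℕ) (ht : ∀ j, t j + 1 ≤ 2 ^ a)
    (hm : (r - 1) * 2 ^ a + ∑ j, t j + 1 ≤ m) (c : Finset (Fin m) → Fin (q + 1)) :
    ∃ j, Mat (fun e => e.card = r ∧ c e = j) univ (t j + 1) := by
  let D := Σ j : Fin (q + 1), Fin (2 ^ a - (t j + 1))
  let c' : Finset (Fin m ⊕ D) → Fin (q + 1) := fun e =>
    if h : e.toRight.Nonempty then h.choose.1 else c e.toLeft
  obtain ⟨j, M, h1, h2, h3⟩ := afl_pow q a r hr (univ : Finset (Fin m ⊕ D)) c' (by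
    simp only [D, Finset.card_univ, Fintype.card_sum, Fintype.card_fin, Fintype.card_sigma]
    have e : ∑ j, (2 ^ a - (t j + 1)) + ∑ j, t j = (q + 1) * (2 ^ a - 1) := by
      rw [← Finset.sum_add_distrib, Finset.sum_congr rfl (g := fun _ => 2 ^ a - 1)
        (fun j _ => by have := ht j; omega)]
      simp
    obtain ⟨b, hb⟩ : ∃ b, 2 ^ a = b + 1 := ⟨2 ^ a - 1, by have := ht 0; omega⟩
    obtain ⟨r', rfl⟩ : ∃ r', r = r' + 1 := ⟨r - 1, by omega⟩
    rw [hb] at hm
    nth_rewrite 2 [hb] at e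
    nth_rewrite 1 2 [hb]
    simp only [Nat.add_sub_cancel] at *
    nlinarith)
  have b1 : (M.filter fun e => e.toRight.Nonempty).card ≤ 2 ^ a - (t j + 1) := by
    have ex : ∀ e ∈ M.filter (fun e => e.toRight.Nonempty),
        ∃ d : Fin (2 ^ a - (t j + 1)), Sum.inr ⟨j, d⟩ ∈ e := by
      intro e he
      obtain ⟨k1, k2⟩ := Finset.mem_filter.1 he
      have := (h2 e k1).1.2
      simp only [c', dif_pos k2] at this
      have h4 := k2.choose_spec
      generalize k2.choose = d at this h4
      obtain ⟨j', d⟩ := d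
      subst this
      exact ⟨d, Finset.mem_toRight.1 h4⟩
    have := Finset.card_le_card_of_forall_subsingleton
      (s := M.filter fun e => e.toRight.Nonempty) (t := univ)
      (fun e (d : Fin (2 ^ a - (t j + 1))) => Sum.inr ⟨j, d⟩ ∈ e)
      (fun e he => by simpa using ex e he)
      (fun d _ e he f hf => by
        by_contra hne
        exact Finset.disjoint_left.1 (h3 e (Finset.mem_filter.1 he.1).1 f
          (Finset.mem_filter.1 hf.1).1 hne) he.2 hf.2)
    simpa using this
  have b2 := Finset.card_filter_add_card_filter_not (s := M) (fun e => e.toRight.Nonempty)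
  have inj : Set.InjOn Finset.toLeft
      (M.filter (fun e => ¬ e.toRight.Nonempty) : Set (Finset (Fin m ⊕ D))) := by
    intro e he f hf h
    have k1 := Finset.not_nonempty_iff_eq_empty.1 (Finset.mem_filter.1 he).2
    have k2 := Finset.not_nonempty_iff_eq_empty.1 (Finset.mem_filter.1 hf).2
    rw [← e.toLeft_disjSum_toRight, ← f.toLeft_disjSum_toRight, h, k1, k2]
  refine ⟨j, Mat.anti (p := (M.filter fun e => ¬ e.toRight.Nonempty).card)
    ⟨_, Finset.card_image_of_injOn inj, ?_, ?_⟩ (by have := ht j; omega)⟩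
  · intro e he
    obtain ⟨f, hf, rfl⟩ := Finset.mem_image.1 he
    obtain ⟨k1, k2⟩ := Finset.mem_filter.1 hf
    have k3 := (h2 f k1).1
    have k4 := f.card_toLeft_add_card_toRight
    rw [Finset.not_nonempty_iff_eq_empty.1 k2] at k4
    simp only [c', dif_neg k2] at k3
    exact ⟨⟨by simpa [k3.1] using k4, k3.2⟩, Finset.subset_univ _⟩
  · intro e he e' he' hne
    obtain ⟨f, hf, rfl⟩ := Finset.mem_image.1 he
    obtain ⟨f', hf', rfl⟩ := Finset.mem_image.1 he'
    have := h3 f (Finset.mem_filter.1 hf).1 f' (Finset.mem_filter.1 hf').1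
      (fun e => hne (by rw [e]))
    refine Finset.disjoint_left.2 fun x h1 h2 => ?_
    exact Finset.disjoint_left.1 this (Finset.mem_toLeft.1 h1) (Finset.mem_toLeft.1 h2)

end Pool.Agent.H.MP_d738f8_co
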