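import Mathlib

namespace Pool.Agent.H.MP_d738f8_co

open Finset Classical

variable {V : Type} {q r : ℕ}

def Pres (P : Fin q → (Fin r → V) → Prop) (j : Fin q) (A : Fin r → Finset V) : Prop :=
  ∃ v, (∀ k, v k ∈ A k) ∧ P j v

def Bad (P : Fin q → (Fin r → V) → Prop) (x : ℝ) (A : Fin r → Finset V) : Prop :=
  ∃ j, Pres P j A ∧ ∃ B : Fin r → Finset V, (∀ k, B k ⊆ A k ∧ x ≤ (B k).card) ∧ ¬ Pres P j B

noncomputable def en (P : Fin q → (Fin r → V) → Prop) {J : Type} [Fintype J]
    (C : J → Finset V) : ℕ :=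
  ∑ τ : Fin r → J, (univ.filter fun j => Pres P j (fun k => C (τ k))).card

noncomputable def nb (P : Fin q → (Fin r → V) → Prop) (x : ℝ) {J : Type} [Fintype J]
    (C : J → Finset V) : ℕ :=
  (univ.filter fun τ : Fin r → J => Bad P x (fun k => C (τ k))).card

def Cl {J : Type} (C : J → Finset V) (L : ℕ) : Prop :=
  (∀ i, (C i).card = L) ∧ ∀ i j, i ≠ j → Disjoint (C i) (C j)

theorem Pres.mono {P : Fin q → (Fin r → V) → Prop} {j : Fin q} {A B : Fin r → Finset V}
    (h : Pres P j A) (hAB : ∀ k, A k ⊆ B k) : Pres P j B := by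
  obtain ⟨v, h1, h2⟩ := h
  exact ⟨v, fun k => hAB k (h1 k), h2⟩

theorem pieces {Λ : Type} [Fintype Λ] [Nonempty Λ] (f : V → Λ) (L K : ℕ) : ∀ X : Finset V,
    (K + Fintype.card Λ) * L ≤ X.card + L → ∃ Q : Fin K → Finset V, Cl Q L ∧
      ∀ k, Q k ⊆ X ∧ ∀ u ∈ Q k, ∀ v ∈ Q k, f u = f v := by
  induction K with
  | zero => intro X _; exact ⟨Fin.elim0, ⟨fun i => i.elim0, fun i => i.elim0⟩, fun i => i.elim0⟩
  | succ K ih =>
    intro X hX
    obtain ⟨y, -, hy⟩ := Finset.exists_le_card_fiber_of_mul_le_card_of_maps_to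
      (s := X) (t := univ) (f := f) (n := L) (fun _ _ => Finset.mem_univ _) Finset.univ_nonempty
      (by rw [Finset.card_univ]; nlinarith)
    obtain ⟨A, hA1, hA2⟩ := Finset.exists_subset_card_eq hy
    have hAX : A ⊆ X := hA1.trans (Finset.filter_subset _ _)
    obtain ⟨Q, ⟨q1, q2⟩, q3⟩ := ih (X \ A) (by
      have := Finset.card_le_card hAX
      rw [Finset.card_sdiff_of_subset hAX, hA2, Nat.sub_add_cancel (hA2 ▸ this)]
      nlinarith)
    have dj : ∀ k, Disjoint A (Q k) := fun k => Finset.disjoint_sdiff.mono_right (q3 k).1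
    refine ⟨Fin.cons A Q, ⟨fun i => ?_, fun i j => ?_⟩, fun k => ?_⟩
    · refine Fin.cases ?_ (fun i => ?_) i <;> simp [hA2, q1]
    · refine Fin.cases ?_ (fun i => ?_) i <;> refine Fin.cases ?_ (fun j => ?_) j <;> intro h
      · exact absurd rfl h
      · simpa using dj j
      · simpa using (dj i).symm
      · simpa using q2 i j (fun e => h (by rw [e]))
    · refine Fin.cases ?_ (fun k => ?_) k
      · refine ⟨hAX, fun u hu v hv => ?_⟩
        rw [(Finset.mem_filter.1 (hA1 hu)).2, (Finset.mem_filter.1 (hA1 hv)).2]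
      · exact ⟨(q3 k).1.trans Finset.sdiff_subset, (q3 k).2⟩

theorem step (P : Fin q → (Fin r → V) → Prop) {γ : ℝ} (hγ : 0 < γ) (K L L' : ℕ) {J : Type}
    [Fintype J] (C : J → Finset V) (hC : Cl C L)
    (h1 : (K + 2 ^ (Fintype.card J ^ r * r)) * L' ≤ L)
    (h2 : (1 - γ) * L ≤ (1 - γ / 2) * (K * L')) (h3 : 0 < L') :
    ∃ C' : J × Fin K → Finset V, Cl C' L' ∧
      (en P C' : ℝ) + nb P (γ * L) C * (γ / 2 * K) ^ r ≤ K ^ r * en P C := by
  have ex : ∀ τ : Fin r → J, ∃ (j : Option (Fin q)) (B : Fin r → Finset V),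
      Bad P (γ * L) (fun k => C (τ k)) → ∃ j', j = some j' ∧ Pres P j' (fun k => C (τ k)) ∧
        (∀ k, B k ⊆ C (τ k) ∧ γ * L ≤ (B k).card) ∧ ¬ Pres P j' B := by
    intro τ
    by_cases h : Bad P (γ * L) (fun k => C (τ k))
    · obtain ⟨j, a1, B, a2, a3⟩ := h
      exact ⟨some j, B, fun _ => ⟨j, rfl, a1, a2, a3⟩⟩
    · exact ⟨none, fun _ => ∅, fun e => absurd e h⟩
  choose jj B hB using ex
  let f : V → ((Fin r → J) × Fin r → Bool) := fun v z => decide (v ∈ B z.1 z.2)
  have ex2 := fun i => pieces f L' K (C i) (by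
    rw [hC.1 i]; simpa using h1.trans (Nat.le_add_right L L'))
  choose Q hQ1 hQ2 using ex2
  refine ⟨fun z => Q z.1 z.2, ⟨fun z => (hQ1 _).1 _, fun z w h => ?_⟩, ?_⟩
  · by_cases e : z.1 = w.1
    · change Disjoint (Q z.1 z.2) (Q w.1 w.2)
      rw [← e]
      exact (hQ1 _).2 _ _ (fun e' => h (Prod.ext e e'))
    · exact (hC.2 _ _ e).mono (hQ2 _ _).1 (hQ2 _ _).1
  let G : (Fin r → J) → Fin r → Finset (Fin K) := fun τ k =>
    univ.filter fun κ => Q (τ k) κ ⊆ B τ k
  have hG : ∀ τ, Bad P (γ * L) (fun k => C (τ k)) → ∀ k, γ / 2 * K ≤ (G τ k).card := by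
    intro τ hb k
    obtain ⟨j, -, -, b2, -⟩ := hB τ hb
    have s1 : (G τ k)ᶜ.biUnion (Q (τ k)) ⊆ C (τ k) \ B τ k := by
      intro v hv
      obtain ⟨κ, k1, k2⟩ := Finset.mem_biUnion.1 hv
      refine Finset.mem_sdiff.2 ⟨(hQ2 _ _).1 k2, fun hvB => ?_⟩
      apply Finset.mem_compl.1 k1
      refine Finset.mem_filter.2 ⟨Finset.mem_univ _, fun u hu => ?_⟩
      have := congrFun ((hQ2 _ _).2 u hu v k2) (τ, k)
      simpa [f, hvB] using this
    have s2 := Finset.card_le_card s1
    rw [Finset.card_biUnion (fun a _ b _ h => (hQ1 _).2 a b h),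
      Finset.card_sdiff_of_subset (b2 k).1, hC.1, Finset.sum_congr rfl
      (g := fun _ => L') (fun a _ => (hQ1 _).1 a), Finset.sum_const, smul_eq_mul] at s2
    have s3 := Finset.card_add_card_compl (G τ k)
    rw [Fintype.card_fin] at s3
    have s4 : (B τ k).card ≤ L := (hC.1 (τ k)) ▸ Finset.card_le_card (b2 k).1
    have s5 : ((G τ k)ᶜ.card : ℝ) * L' ≤ L - (B τ k).card := by
      rw [← Nat.cast_sub s4]; exact_mod_cast s2
    have s6 : ((G τ k).card : ℝ) + (G τ k)ᶜ.card = K := by exact_mod_cast s3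
    have s7 : (0 : ℝ) < L' := by exact_mod_cast h3
    have s8 := (b2 k).2
    have : ((G τ k)ᶜ.card : ℝ) * L' ≤ ((1 - γ / 2) * K) * L' := by linarith
    have := le_of_mul_le_mul_right this s7
    linarith
  have key : ∀ τ : Fin r → J,
      (∑ κ : Fin r → Fin K, ((univ.filter fun j => Pres P j (fun k => Q (τ k) (κ k))).card : ℝ)) +
      (if Bad P (γ * L) (fun k => C (τ k)) then (γ / 2 * K) ^ r else 0) ≤
      K ^ r * (univ.filter fun j => Pres P j (fun k => C (τ k))).card := by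
    intro τ
    have sub : ∀ κ : Fin r → Fin K, (univ.filter fun j => Pres P j (fun k => Q (τ k) (κ k))) ⊆
        univ.filter fun j => Pres P j (fun k => C (τ k)) := fun κ j hj =>
      Finset.mem_filter.2 ⟨Finset.mem_univ _,
        (Finset.mem_filter.1 hj).2.mono fun k => (hQ2 _ _).1⟩
    have tot : (K : ℝ) ^ r * (univ.filter fun j => Pres P j (fun k => C (τ k))).card =
        ∑ _κ : Fin r → Fin K, ((univ.filter fun j => Pres P j (fun k => C (τ k))).card : ℝ) := by
      simp
    rw [tot]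
    split_ifs with hb
    · obtain ⟨j, -, b1, -, b3⟩ := hB τ hb
      have : (γ / 2 * K) ^ r ≤ ∑ κ : Fin r → Fin K,
          (if κ ∈ Fintype.piFinset (G τ) then (1 : ℝ) else 0) := by
        rw [Finset.sum_boole, Finset.filter_mem_eq_inter, Finset.univ_inter,
          Fintype.card_piFinset, Nat.cast_prod]
        calc _ = ∏ _k : Fin r, (γ / 2 * K) := by simp
          _ ≤ _ := Finset.prod_le_prod (fun _ _ => by positivity) (fun k _ => hG τ hb k)
      refine le_trans (add_le_add le_rfl this) ?_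
      rw [← Finset.sum_add_distrib]
      refine Finset.sum_le_sum fun κ _ => ?_
      split_ifs with hκ
      · have : (univ.filter fun j => Pres P j (fun k => Q (τ k) (κ k))).card <
            (univ.filter fun j => Pres P j (fun k => C (τ k))).card := by
          refine Finset.card_lt_card ⟨sub κ, fun h => b3 ?_⟩
          have := (Finset.mem_filter.1 (h (Finset.mem_filter.2 ⟨Finset.mem_univ j, b1⟩))).2
          exact this.mono fun k => (Finset.mem_filter.1 (Fintype.mem_piFinset.1 hκ k)).2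
        exact_mod_cast this
      · rw [add_zero]; exact_mod_cast Finset.card_le_card (sub κ)
    · rw [add_zero]
      exact Finset.sum_le_sum fun κ _ => by exact_mod_cast Finset.card_le_card (sub κ)
  have := Finset.sum_le_sum (s := univ) fun τ _ => key τ
  rw [Finset.sum_add_distrib, ← Finset.mul_sum, ← Finset.sum_filter, Finset.sum_const,
    nsmul_eq_mul] at this
  simp only [en, nb]
  push_cast
  refine le_trans (le_of_eq ?_) this
  congr 1
  rw [← Fintype.sum_prod_type']
  exact Fintype.sum_equiv (Equiv.arrowProdEquivProdArrow _ _ _) _ _ (fun _ => rfl)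

theorem reg (q r : ℕ) {γ η θ : ℝ} (hγ : 0 < γ) (hγ1 : γ ≤ 1) (hη : 0 < η) (hθ : 0 < θ)
    (hθ1 : θ ≤ γ / 2) (k : ℕ) : ∀ M : ℕ, ∃ B L0 : ℕ, ∀ (V J : Type) [Fintype J]
      (P : Fin q → (Fin r → V) → Prop) (C : J → Finset V) (L : ℕ), Fintype.card J = M → Cl C L →
      L0 ≤ L → (en P C : ℝ) ≤ k * (η * (γ / 2) ^ r) * M ^ r →
      ∃ (J' : Type) (_ : Fintype J') (C' : J' → Finset V) (L' N : ℕ), Fintype.card J' = M * N ∧
        N ≤ B ∧ Cl C' L' ∧ (1 - θ) ^ k * L ≤ N * L' ∧
        (nb P (γ * L') C' : ℝ) ≤ η * (M * N) ^ r := by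
  induction k with
  | zero =>
    intro M
    refine ⟨1, 0, fun V J _ P C L hM hC _ he => ⟨J, inferInstance, C, L, 1, by simp [hM], le_rfl,
      hC, by simp, ?_⟩⟩
    have e0 : en P C = 0 := by
      have : (en P C : ℝ) ≤ 0 := by simpa using he
      exact_mod_cast le_antisymm this (by positivity)
    have : nb P (γ * L) C = 0 := by
      rw [nb, Finset.card_eq_zero, Finset.filter_eq_empty_iff]
      rintro τ - ⟨j, hj, -⟩
      have := (Finset.sum_eq_zero_iff.1 e0) τ (Finset.mem_univ _)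
      rw [Finset.card_eq_zero, Finset.filter_eq_empty_iff] at this
      exact this (Finset.mem_univ j) hj
    rw [this]; simp; positivity
  | succ k ih =>
    intro M
    obtain ⟨K, hK⟩ := exists_nat_gt (2 * (2 ^ (M ^ r * r) : ℕ) / θ)
    obtain ⟨B, L0, h⟩ := ih (M * K)
    obtain ⟨L1, hL1⟩ := exists_nat_gt (2 * K / θ)
    refine ⟨K * B + 1, L1 + 2 * K * (L0 + 1), fun V J _ P C L hM hC hL he => ?_⟩
    have t1 : 0 ≤ 1 - θ := by linarith
    by_cases hb : (nb P (γ * L) C : ℝ) ≤ η * M ^ r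
    · refine ⟨J, inferInstance, C, L, 1, by simp [hM], by omega, hC, ?_, by simpa using hb⟩
      have := pow_le_one₀ t1 (by linarith) (n := k + 1)
      simp only [Nat.cast_one, one_mul]
      exact mul_le_of_le_one_left (by positivity) this
    set a : ℕ := 2 ^ (M ^ r * r) with ha
    have a0 : 0 < a := by positivity
    rw [div_lt_iff₀ hθ] at hK hL1
    have K0 : (0 : ℝ) < K := by
      have : (0 : ℝ) < a := by exact_mod_cast a0
      by_contra hn
      have : (K : ℝ) = 0 := le_antisymm (not_lt.1 hn) (by positivity)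
      rw [this] at hK; linarith
    set L' := L / (K + a) with hL'
    have d1 : (K + a) * L' ≤ L := Nat.mul_div_le _ _
    have d2 : (L : ℝ) ≤ (K + a) * (L' + 1) := by
      exact_mod_cast (Nat.lt_mul_div_succ L (show 0 < K + a by omega)).le
    have hLr : (L1 : ℝ) + 2 * K * (L0 + 1) ≤ L := by exact_mod_cast hL
    have L0' : (0 : ℝ) ≤ 2 * K * (L0 + 1) := by positivity
    have d3 : (1 - θ) * L ≤ K * L' := by
      have u1 : (L : ℝ) ≤ (K * (1 + θ / 2)) * (L' + 1) :=
        d2.trans (mul_le_mul_of_nonneg_right (by linarith) (by positivity))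
      have u2 : (1 - θ / 2) * L ≤ K * (L' + 1) := by
        have := mul_le_mul_of_nonneg_left u1 (show 0 ≤ 1 - θ / 2 by linarith)
        have h5 : (0 : ℝ) ≤ θ ^ 2 * (K * (L' + 1)) := by positivity
        nlinarith
      have u3 : (L1 : ℝ) * θ ≤ L * θ := mul_le_mul_of_nonneg_right (by linarith) hθ.le
      linarith
    have d4 : L0 + 1 ≤ L' := by
      have : (K : ℝ) * (L0 + 1) ≤ K * L' := by
        have : (0 : ℝ) ≤ L1 := by positivity
        have : (0 : ℝ) ≤ (1 / 2 - θ) * L := mul_nonneg (by linarith) (by positivity)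
        linarith
      exact_mod_cast le_of_mul_le_mul_left this K0
    obtain ⟨C1, hC1, he1⟩ := step P hγ K L L' C hC (by rw [hM]; exact d1) (by
      have := mul_le_mul_of_nonneg_left d3 (show 0 ≤ 1 - γ / 2 by linarith)
      have h5 : (0 : ℝ) ≤ ((1 - γ / 2) * (1 - θ) - (1 - γ)) * L :=
        mul_nonneg (by nlinarith) (by positivity)
      linarith) (by omega)
    obtain ⟨J', i', C', L2, N, e1, e2, e3, e4, e5⟩ := h V (J × Fin K) P C1 L' (by simp [hM]) hC1
      (by omega) (by
        have u1 := mul_le_mul_of_nonneg_left he (show (0 : ℝ) ≤ K ^ r by positivity)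
        have u2 := mul_le_mul_of_nonneg_right (not_le.1 hb).le
          (show (0 : ℝ) ≤ (γ / 2 * K) ^ r by positivity)
        push_cast at u1 ⊢
        rw [mul_pow] at he1 u2 ⊢
        linarith)
    refine ⟨J', i', C', L2, K * N, by rw [e1, mul_assoc], by nlinarith, e3, ?_, ?_⟩
    · have := mul_le_mul_of_nonneg_left d3 (pow_nonneg t1 k)
      have h5 := mul_le_mul_of_nonneg_left e4 K0.le
      push_cast
      rw [pow_succ]
      linarith
    · push_cast at e5 ⊢
      rwa [← mul_assoc]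

end Pool.Agent.H.MP_d738f8_co
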