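import Pool.Agent.H.MP_d738f8_co.A
import Pool.Agent.H.MP_d738f8_co.B

namespace Pool.Agent.H.MP_d738f8_co

open Finset Classical

theorem var {κ : Type} [Fintype κ] [Nonempty κ] (m : ℕ) : ∀ f : (Fin m → κ) → ℝ,
    (∀ x i a, f x ≤ f (Function.update x i a) + 1) → ∀ μ : ℝ,
    ∑ x, f x = μ * (Fintype.card κ : ℝ) ^ m →
    ∑ x, (f x - μ) ^ 2 ≤ m * (Fintype.card κ : ℝ) ^ m := by
  induction m with
  | zero =>
    intro f _ μ h
    simp only [Finset.univ_unique, Finset.sum_singleton, pow_zero, mul_one] at h ⊢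
    simp [h]
  | succ m ih =>
    intro f hf μ h
    set N : ℝ := (Fintype.card κ : ℝ) with hN
    have N0 : 0 < N := by rw [hN]; exact_mod_cast Fintype.card_pos
    have sw : ∀ F : (Fin (m + 1) → κ) → ℝ,
        ∑ x, F x = ∑ y : Fin m → κ, ∑ a : κ, F (Fin.cons a y) := by
      intro F
      rw [Finset.sum_comm, ← Fintype.sum_prod_type']
      exact (Fintype.sum_equiv (Fin.consEquiv fun _ => κ) _ _ (fun _ => rfl)).symm
    let g : (Fin m → κ) → ℝ := fun y => (∑ a : κ, f (Fin.cons a y)) / N
    have hg : ∀ y, ∑ a : κ, f (Fin.cons a y) = N * g y := fun y => by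
      simp only [g]; field_simp
    have h1 := ih g (fun y i b => by
      have : N * g y ≤ N * (g (Function.update y i b) + 1) := by
        rw [mul_add, ← hg, ← hg]
        calc _ ≤ ∑ a : κ, (f (Fin.cons a (Function.update y i b)) + 1) :=
            Finset.sum_le_sum fun a _ => by rw [Fin.cons_update]; exact hf _ _ _
          _ = _ := by rw [Finset.sum_add_distrib]; simp [hN]
      exact le_of_mul_le_mul_left this N0) μ (by
      rw [sw] at h
      simp only [hg] at h
      rw [← Finset.mul_sum, pow_succ] at h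
      exact mul_left_cancel₀ N0.ne' (by linarith))
    have h2 : ∀ y, ∑ a : κ, (f (Fin.cons a y) - μ) ^ 2 ≤ N + N * (g y - μ) ^ 2 := by
      intro y
      have b : ∀ a a' : κ, f (Fin.cons a y) ≤ f (Fin.cons a' y) + 1 := fun a a' => by
        have := hf (Fin.cons a y) 0 a'
        rwa [Fin.update_cons_zero] at this
      have c : ∀ a : κ, (f (Fin.cons a y) - g y) ^ 2 ≤ 1 := by
        intro a
        have u1 := Finset.sum_le_sum (s := univ) fun a' _ => b a a'
        have u2 := Finset.sum_le_sum (s := univ) fun a' _ => b a' a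
        rw [Finset.sum_add_distrib, hg] at u1
        rw [hg] at u2
        simp only [Finset.sum_const, Finset.card_univ, nsmul_eq_mul, ← hN] at u1 u2
        have v1 : f (Fin.cons a y) ≤ g y + 1 := le_of_mul_le_mul_left (by linarith) N0
        have v2 : g y ≤ f (Fin.cons a y) + 1 := le_of_mul_le_mul_left u2 N0
        nlinarith
      calc _ ≤ ∑ a : κ, (1 + 2 * (g y - μ) * f (Fin.cons a y) + (μ ^ 2 - g y ^ 2 +
            2 * (g y - μ) ^ 2 - 2 * (g y - μ) * (g y - μ) + g y ^ 2 - μ ^ 2 +
            (g y - μ) ^ 2 - 2 * (g y - μ) * g y)) :=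
          Finset.sum_le_sum fun a _ => by nlinarith [c a]
        _ = _ := by
          rw [Finset.sum_add_distrib, Finset.sum_add_distrib, ← Finset.mul_sum, hg]
          simp only [Finset.sum_const, Finset.card_univ, nsmul_eq_mul, ← hN]
          ring
    rw [sw]
    refine (Finset.sum_le_sum fun y _ => h2 y).trans ?_
    rw [Finset.sum_add_distrib, ← Finset.mul_sum]
    simp only [Finset.sum_const, Finset.card_univ, nsmul_eq_mul, Fintype.card_pi,
      Finset.prod_const, Fintype.card_fin, Nat.cast_pow, ← hN]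
    have := mul_le_mul_of_nonneg_left h1 N0.le
    push_cast
    rw [pow_succ]
    linarith

theorem shift {G : Type} [Fintype G] [AddCommGroup G] {r m : ℕ} (ρ : Fin r → Fin m)
    (hρ : Function.Injective ρ) (F : (Fin r → G) → ℝ) :
    (Fintype.card G : ℝ) ^ r * ∑ x : Fin m → G, F (fun k => x (ρ k)) =
      (Fintype.card G : ℝ) ^ m * ∑ y, F y := by
  have h1 : ∀ y : Fin r → G, ∑ x : Fin m → G, F (fun k => x (ρ k)) =
      ∑ x : Fin m → G, F ((fun k => x (ρ k)) + y) := by
    intro y
    refine (Fintype.sum_equiv (Equiv.addRight (Function.extend ρ y 0)) _ _ (fun x => ?_)).symm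
    congr 1
    funext k
    simp [hρ.extend_apply]
  have h2 : ∀ z : Fin r → G, ∑ y, F (z + y) = ∑ y, F y := fun z =>
    Fintype.sum_equiv (Equiv.addLeft z) _ _ (fun _ => rfl)
  calc _ = ∑ _y : Fin r → G, ∑ x : Fin m → G, F (fun k => x (ρ k)) := by simp
    _ = ∑ y : Fin r → G, ∑ x : Fin m → G, F ((fun k => x (ρ k)) + y) :=
      Finset.sum_congr rfl fun y _ => h1 y
    _ = _ := by rw [Finset.sum_comm]; simp [h2]

theorem greedy {V : Type} {q r : ℕ} (E : Fin q → Finset V → Prop)
    (hE : ∀ j e, E j e → e.Nonempty) (x : ℝ) (A : Fin r → Finset V)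
    (hd : ∀ k l, k ≠ l → Disjoint (A k) (A l)) (j : Fin q)
    (h1 : ¬ Bad (fun j v => E j (univ.image v)) x A) (h2 : Pres (fun j v => E j (univ.image v)) j A)
    (p : ℕ) : ∀ B : Fin r → Finset V, (∀ k, B k ⊆ A k ∧ x + p ≤ (B k).card) →
      Mat (E j) (univ.biUnion B) p := by
  induction p with
  | zero => intro B _; exact Mat.zero _ _
  | succ p ih =>
    intro B hB
    have : Pres (fun j v => E j (univ.image v)) j B := by
      by_contra hn
      refine h1 ⟨j, h2, B, fun k => ⟨(hB k).1, le_trans ?_ (hB k).2⟩, hn⟩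
      have : (0 : ℝ) ≤ ((p + 1 : ℕ) : ℝ) := by positivity
      linarith
    obtain ⟨v, v1, v2⟩ := this
    have m1 := ih (fun k => (B k).erase (v k)) (fun k => ⟨(Finset.erase_subset _ _).trans (hB k).1,
      by
        have := Finset.card_erase_add_one (v1 k)
        have h3 := (hB k).2
        rw [← this] at h3
        push_cast at h3
        linarith⟩)
    have m2 : Mat (E j) (univ.image v) 1 := ⟨{univ.image v}, rfl, by simp [v2], by simp⟩
    refine (Mat.union (hE j) m1 m2 ?_).mono (fun _ h _ => h) ?_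
    · rw [Finset.disjoint_biUnion_left]
      refine fun k _ => Finset.disjoint_left.2 fun a ha hb => ?_
      obtain ⟨l, -, rfl⟩ := Finset.mem_image.1 hb
      by_cases e : k = l
      · subst e; simp at ha
      · exact Finset.disjoint_left.1 (hd k l e) ((hB k).1 (Finset.mem_of_mem_erase ha))
          ((hB l).1 (v1 l))
    · refine Finset.union_subset (Finset.biUnion_mono fun k _ => Finset.erase_subset _ _) ?_
      intro a ha
      obtain ⟨l, -, rfl⟩ := Finset.mem_image.1 ha
      exact Finset.mem_biUnion.2 ⟨l, Finset.mem_univ _, v1 l⟩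

theorem sample {V G : Type} [Fintype V] [Fintype G] [AddCommGroup G] {q r m : ℕ}
    (E : Fin (q + 1) → Finset V → Prop) (hE : ∀ j e, E j e → e.Nonempty) (x0 : ℝ) (L p0 : ℕ)
    (D : Fin m × G → Finset V) (hD : Cl D L) (hp : x0 + p0 ≤ L)
    (hb : 4 * (nb (fun j (v : Fin r → V) => E j (univ.image v)) x0 D : ℝ) ≤
      (Fintype.card G : ℝ) ^ r)
    (hc : ∀ A : Fin r → Finset V, (∀ k, (A k).card = L) → (∀ k l, k ≠ l → Disjoint (A k) (A l)) →
      ∃ j, Pres (fun j v => E j (univ.image v)) j A)
    (t : Fin (q + 1) → ℕ) (ht : ∀ j, ¬ Mat (E j) univ (t j)) (lam : ℝ) (h0 : 0 < lam)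
    (hl : 2 * (q + 1) * m ≤ lam ^ 2) :
    ∃ c' : Finset (Fin m) → Fin (q + 1), ∀ j p, p ≤ m →
      Mat (fun e => e.card = r ∧ c' e = j) univ p →
      p0 * (Fintype.card G : ℝ) * (p - lam) ≤ t j := by
  set P : Fin (q + 1) → (Fin r → V) → Prop := fun j v => E j (univ.image v) with hP
  set N : ℝ := (Fintype.card G : ℝ) with hN
  have N0 : 0 < N := by rw [hN]; exact_mod_cast Fintype.card_pos
  rcases Nat.eq_zero_or_pos m with rfl | m0
  · refine ⟨fun _ => 0, fun j p hp _ => ?_⟩
    obtain rfl : p = 0 := by omega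
    have : (0 : ℝ) ≤ p0 * N * lam := by positivity
    have : (0 : ℝ) ≤ t j := by positivity
    simp only [Nat.cast_zero, zero_sub, mul_neg]
    linarith
  have ex : ∀ I : Finset (Fin m), ∃ o : Fin r → Fin m, I.card = r →
      Function.Injective o ∧ ∀ k, o k ∈ I := by
    intro I
    by_cases h : I.card = r
    · exact ⟨I.orderEmbOfFin h, fun _ => ⟨(I.orderEmbOfFin h).injective,
        fun k => I.orderEmbOfFin_mem h k⟩⟩
    · exact ⟨fun _ => ⟨0, m0⟩, fun e => absurd e h⟩
  choose o ho using ex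
  let A : (Fin m → G) → Finset (Fin m) → Fin r → Finset V := fun x I k => D (o I k, x (o I k))
  have Ad : ∀ x I, I.card = r → ∀ k l, k ≠ l → Disjoint (A x I k) (A x I l) :=
    fun x I hI k l h => hD.2 _ _ (fun e => h ((ho I hI).1 (congrArg Prod.fst e)))
  let R : Fin (q + 1) → (Fin m → G) → Finset (Fin m) → Prop := fun j x I =>
    I.card = r ∧ ¬ Bad P x0 (A x I) ∧ Pres P j (A x I)
  let ν : Fin (q + 1) → (Fin m → G) → ℕ := fun j x => Nat.findGreatest (Mat (R j x) univ) m
  have ν1 : ∀ j x, Mat (R j x) univ (ν j x) := fun j x =>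
    Nat.findGreatest_spec (P := Mat (R j x) univ) (Nat.zero_le m) (Mat.zero _ _)
  have ν2 : ∀ j x p, p ≤ m → Mat (R j x) univ p → p ≤ ν j x := fun j x p h1 h2 =>
    Nat.le_findGreatest h1 h2
  have lip : ∀ j x i a, (ν j x : ℝ) ≤ ν j (Function.update x i a) + 1 := by
    intro j x i a
    obtain ⟨M, m1, m2, m3⟩ := ν1 j x
    have b1 : (M.filter fun I => i ∈ I).card ≤ 1 := Finset.card_le_one.2 fun I hI I' hI' => by
      by_contra hne
      exact Finset.disjoint_left.1 (m3 I (Finset.mem_filter.1 hI).1 I'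
        (Finset.mem_filter.1 hI').1 hne) (Finset.mem_filter.1 hI).2 (Finset.mem_filter.1 hI').2
    have b2 := Finset.card_filter_add_card_filter_not (s := M) (fun I => i ∈ I)
    have b3 : ν j x ≤ m := Nat.findGreatest_le m
    have := ν2 j (Function.update x i a) (M.filter fun I => i ∉ I).card (by omega)
      ⟨_, rfl, fun I hI => ?_, fun I hI I' hI' =>
        m3 I (Finset.mem_filter.1 hI).1 I' (Finset.mem_filter.1 hI').1⟩
    · exact_mod_cast (show ν j x ≤ ν j (Function.update x i a) + 1 by omega)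
    · obtain ⟨k1, k2⟩ := Finset.mem_filter.1 hI
      have k3 := (m2 I k1).1
      have : A (Function.update x i a) I = A x I := by
        funext k
        simp only [A]
        rw [Function.update_of_ne (fun e : o I k = i => k2 (e ▸ (ho I k3.1).2 k))]
      exact ⟨⟨k3.1, this ▸ k3.2⟩, Finset.subset_univ _⟩
  have lift : ∀ j x, Mat (E j) (univ.biUnion fun i => D (i, x i)) (ν j x * p0) := by
    intro j x
    obtain ⟨M, m1, m2, m3⟩ := ν1 j x
    have := Mat.biUnion (hE j) M (fun I => univ.biUnion (A x I)) (fun _ => p0)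
      (fun I hI => greedy E hE x0 (A x I) (Ad x I (m2 I hI).1.1) j (m2 I hI).1.2.1
        (m2 I hI).1.2.2 p0 (A x I) (fun k => ⟨le_rfl, by rw [hD.1]; exact hp⟩))
      (fun I hI I' hI' hne => by
        rw [Finset.disjoint_biUnion_left]
        intro k _
        rw [Finset.disjoint_biUnion_right]
        intro l _
        refine hD.2 _ _ (fun e => ?_)
        have e1 : o I k = o I' l := congrArg Prod.fst e
        exact Finset.disjoint_left.1 (m3 I hI I' hI' hne) ((ho I (m2 I hI).1.1).2 k)
          (e1 ▸ (ho I' (m2 I' hI').1.1).2 l))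
    rw [Finset.sum_const, m1, smul_eq_mul] at this
    refine this.mono (fun _ h _ => h) (Finset.biUnion_subset.2 fun I _ =>
      Finset.biUnion_subset.2 fun k _ => ?_)
    exact Finset.subset_biUnion_of_mem (fun i => D (i, x i)) (Finset.mem_univ (o I k))
  have ub : ∀ j x, (∑ c : G, (ν j (x + fun _ => c) : ℝ)) * p0 ≤ t j := by
    intro j x
    have := Mat.biUnion (hE j) univ
      (fun c : G => univ.biUnion fun i => D (i, (x + fun _ => c : Fin m → G) i))
      (fun c => ν j (x + fun _ => c) * p0) (fun c _ => lift j _) (fun c _ c' _ hne => by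
        rw [Finset.disjoint_biUnion_left]
        intro k _
        rw [Finset.disjoint_biUnion_right]
        intro l _
        refine hD.2 _ _ (fun e => hne ?_)
        obtain ⟨rfl, e2⟩ := Prod.ext_iff.1 e
        simpa using e2)
    have h3 : ∑ c : G, ν j (x + fun _ => c) * p0 ≤ t j := by
      by_contra hn
      exact ht j ((this.anti (not_le.1 hn).le).mono (fun _ h _ => h) (Finset.subset_univ _))
    rw [← Finset.sum_mul] at h3
    exact_mod_cast h3
  let μ : Fin (q + 1) → ℝ := fun j => (∑ x, (ν j x : ℝ)) / N ^ m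
  have hμ : ∀ j, ∑ x, (ν j x : ℝ) = μ j * N ^ m := fun j => by simp only [μ]; field_simp
  have μb : ∀ j, p0 * N * μ j ≤ t j := by
    intro j
    have := Finset.sum_le_sum (s := univ) fun x _ => ub j x
    have e : ∀ c : G, ∑ x : Fin m → G, (ν j (x + fun _ => c) : ℝ) = μ j * N ^ m := fun c => by
      rw [← hμ]
      exact Fintype.sum_equiv (Equiv.addRight (fun _ => c)) _ _ (fun _ => rfl)
    rw [← Finset.sum_mul, Finset.sum_comm] at this
    simp only [e, Finset.sum_const, Finset.card_univ, nsmul_eq_mul, Fintype.card_pi,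
      Finset.prod_const, Fintype.card_fin, Nat.cast_pow, ← hN] at this
    exact le_of_mul_le_mul_left (a := N ^ m) (by linarith) (by positivity)
  have good : ∃ x, (∀ I, I.card = r → ¬ Bad P x0 (A x I)) ∧ ∀ j, ν j x ≤ μ j + lam := by
    by_contra hn
    push Not at hn
    let F : (Fin r → Fin m) → (Fin r → G) → ℝ := fun ρ y =>
      if Bad P x0 (fun k => D (ρ k, y k)) then 1 else 0
    have F0 : ∀ ρ y, 0 ≤ F ρ y := fun ρ y => by simp only [F]; split_ifs <;> norm_num
    have s1 : ∀ x : Fin m → G, lam ^ 2 ≤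
        lam ^ 2 * (∑ ρ with Function.Injective ρ, F ρ (fun k => x (ρ k))) +
        ∑ j, ((ν j x : ℝ) - μ j) ^ 2 := by
      intro x
      have u1 : 0 ≤ ∑ ρ with Function.Injective ρ, F ρ (fun k => x (ρ k)) :=
        Finset.sum_nonneg fun _ _ => F0 _ _
      have u2 : 0 ≤ ∑ j, ((ν j x : ℝ) - μ j) ^ 2 := Finset.sum_nonneg fun _ _ => sq_nonneg _
      by_cases hx : ∀ I, I.card = r → ¬ Bad P x0 (A x I)
      · obtain ⟨j, hj⟩ := hn x hx
        have := Finset.single_le_sum (f := fun j => ((ν j x : ℝ) - μ j) ^ 2)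
          (fun _ _ => sq_nonneg _) (Finset.mem_univ j)
        have h3 : lam ^ 2 ≤ ((ν j x : ℝ) - μ j) ^ 2 := pow_le_pow_left₀ h0.le (by linarith) 2
        have := mul_nonneg (sq_nonneg lam) u1
        linarith
      · push Not at hx
        obtain ⟨I, hI, hb⟩ := hx
        have := Finset.single_le_sum (f := fun ρ => F ρ (fun k => x (ρ k)))
          (s := univ.filter Function.Injective) (fun _ _ => F0 _ _) (a := o I)
          (Finset.mem_filter.2 ⟨Finset.mem_univ _, (ho I hI).1⟩)
        have e : F (o I) (fun k => x (o I k)) = 1 := if_pos hb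
        rw [e] at this
        have := mul_le_mul_of_nonneg_left this (sq_nonneg lam)
        linarith
    have s2 := Finset.sum_le_sum (s := univ) fun x _ => s1 x
    rw [Finset.sum_add_distrib, ← Finset.mul_sum, Finset.sum_comm,
      Finset.sum_comm (s := univ) (t := univ)] at s2
    have s3 : ∑ j, ∑ x, ((ν j x : ℝ) - μ j) ^ 2 ≤ (q + 1) * (m * N ^ m) := by
      refine (Finset.sum_le_sum fun j _ => var m _ (lip j) (μ j) (hμ j)).trans ?_
      simp [hN]
    have s4 : N ^ r * ∑ ρ with Function.Injective ρ, ∑ x : Fin m → G, F ρ (fun k => x (ρ k)) ≤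
        N ^ m * nb P x0 D := by
      rw [Finset.mul_sum, Finset.sum_congr rfl
        (fun ρ hρ => shift ρ (Finset.mem_filter.1 hρ).2 (F ρ)), ← Finset.mul_sum]
      refine mul_le_mul_of_nonneg_left ?_ (by positivity)
      refine (Finset.sum_le_sum_of_subset_of_nonneg (Finset.filter_subset _ _)
        (fun _ _ _ => Finset.sum_nonneg fun _ _ => F0 _ _)).trans (le_of_eq ?_)
      rw [nb, ← Finset.sum_boole, ← Fintype.sum_prod_type']
      exact (Fintype.sum_equiv (Equiv.arrowProdEquivProdArrow _ _ _) _ _ (fun _ => rfl)).symm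
    have s5 : 4 * ∑ ρ with Function.Injective ρ, ∑ x : Fin m → G, F ρ (fun k => x (ρ k)) ≤
        N ^ m := by
      have := mul_le_mul_of_nonneg_left hb (show 0 ≤ N ^ m by positivity)
      exact le_of_mul_le_mul_left (a := N ^ r) (by linarith) (by positivity)
    simp only [Finset.sum_const, Finset.card_univ, nsmul_eq_mul, Fintype.card_pi,
      Finset.prod_const, Fintype.card_fin, Nat.cast_pow, ← hN] at s2
    have s6 := mul_le_mul_of_nonneg_left s5 (sq_nonneg lam)
    have s7 := mul_le_mul_of_nonneg_left hl (show 0 ≤ N ^ m by positivity)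
    have s8 : 0 < N ^ m * lam ^ 2 := by positivity
    linarith
  obtain ⟨x, x1, x2⟩ := good
  have ex : ∀ I : Finset (Fin m), ∃ j, I.card = r → Pres P j (A x I) := by
    intro I
    by_cases h : I.card = r
    · obtain ⟨j, hj⟩ := hc (A x I) (fun k => hD.1 _) (Ad x I h)
      exact ⟨j, fun _ => hj⟩
    · exact ⟨0, fun e => absurd e h⟩
  choose c' hc' using ex
  refine ⟨c', fun j p hp hM => ?_⟩
  have := ν2 j x p hp (hM.mono (fun I h _ => ⟨h.1, x1 I h.1, h.2 ▸ hc' I h.1⟩) le_rfl)
  have h3 : (p : ℝ) - lam ≤ μ j := by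
    have : (p : ℝ) ≤ ν j x := by exact_mod_cast this
    linarith [x2 j]
  exact (mul_le_mul_of_nonneg_left h3 (by positivity)).trans (μb j)

end Pool.Agent.H.MP_d738f8_co
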