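import Mathlib

namespace Pool.Agent.H.MP_d738f8_co

def IsConnector {V : Type} (r s : ℕ) (H : Finset (Finset V)) : Prop :=
  ∀ A : Fin r → Finset V, (∀ i j, i ≠ j → Disjoint (A i) (A j)) → (∀ i, s ≤ (A i).card) →
    ∃ e ∈ H, ∃ v : Fin r → V, (∀ i, v i ∈ A i) ∧ (e : Set V) = Set.range v

def Arrows {V : Type} {q : ℕ} (H : Finset (Finset V)) (t : Fin q → ℕ) : Prop :=
  ∀ c : Finset V → Fin q, ∃ j, ∃ M ⊆ H, M.card = t j ∧ (∀ e ∈ M, c e = j) ∧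
    ∀ e ∈ M, ∀ f ∈ M, e ≠ f → Disjoint e f

end Pool.Agent.H.MP_d738f8_co
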