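import Pool.Agent.H.MP_d738f8_co.C
import Pool.Agent.H.MP_d738f8_co.Defs

namespace Pool.Agent.H.MP_d738f8_co

open Finset Classical Filter Topology

def TrP (q r m : ℕ) (γ δ : ℝ) : Prop :=
  ∀ (V : Type) [Fintype V] (H : Finset (Finset V)) (c : Finset V → Fin (q + 1)) (s : ℕ), 1 ≤ s →
    s ≤ δ * Fintype.card V → (∀ e ∈ H, e.card = r) → IsConnector r s H →
    ∀ t : Fin (q + 1) → ℕ, (∀ j, ¬ Mat (fun e => e ∈ H ∧ c e = j) univ (t j)) →
    ∀ lam : ℝ, 0 < lam → 2 * (q + 1) * m ≤ lam ^ 2 →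
    ∃ c' : Finset (Fin m) → Fin (q + 1), ∀ j p, p ≤ m →
      Mat (fun e => e.card = r ∧ c' e = j) univ p →
      (1 - 4 * γ) * Fintype.card V * (p - lam) ≤ t j * m

theorem TrP.anti {q r m : ℕ} {γ δ δ' : ℝ} (h : TrP q r m γ δ) (hδ : δ' ≤ δ) : TrP q r m γ δ' :=
  fun V _ H c s h1 h2 => h V H c s h1
    (h2.trans (mul_le_mul_of_nonneg_right hδ (Nat.cast_nonneg _)))

theorem transfer (q r m : ℕ) (hr : 1 ≤ r) (hm : 1 ≤ m) {γ : ℝ} (hγ : 0 < γ) (hγ1 : γ ≤ 1 / 4) :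
    ∃ δ > 0, TrP q r m γ δ := by
  have m0 : (1 : ℝ) ≤ m := by exact_mod_cast hm
  set η : ℝ := 1 / (4 * m ^ r) with hη
  have η0 : 0 < η := by positivity
  obtain ⟨k, hk⟩ := exists_nat_gt ((q + 1) / (η * (γ / 2) ^ r))
  rw [div_lt_iff₀ (by positivity)] at hk
  set θ : ℝ := γ / (2 * (k + 1)) with hθ
  have k0 : (0 : ℝ) ≤ k := by positivity
  have θ0 : 0 < θ := by positivity
  have θ1 : θ * (2 * (k + 1)) = γ := by rw [hθ]; field_simp
  have θ2 : θ ≤ γ / 2 := by nlinarith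
  obtain ⟨B, L0, h⟩ := reg (q + 1) r hγ (by linarith) η0 θ0 θ2 k m
  refine ⟨γ / (4 * m * (B + 1) * (L0 + 1)), by positivity, ?_⟩
  intro V _ H c s s1 s2 hH hc t ht lam l0 l1
  set n : ℕ := Fintype.card V with hn
  have s1' : (1 : ℝ) ≤ s := by exact_mod_cast s1
  rw [div_mul_eq_mul_div, le_div_iff₀ (by positivity)] at s2
  have B0 : (0 : ℝ) ≤ B := by positivity
  have L00 : (0 : ℝ) ≤ L0 := by positivity
  have n0 : (0 : ℝ) ≤ n := by positivity
  have w1 : (s : ℝ) * (4 * m * (B + 1)) ≤ γ * n := by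
    have : (0 : ℝ) ≤ s * (4 * m * (B + 1)) * L0 := by positivity
    linarith
  have w2 : (m : ℝ) * (L0 + 1) ≤ γ * n := by
    have : (1 : ℝ) ≤ s * (4 * (B + 1)) := by nlinarith
    have := mul_le_mul_of_nonneg_left this (show (0 : ℝ) ≤ m * (L0 + 1) by positivity)
    linarith
  obtain ⟨C, hC, -⟩ := pieces (fun _ : V => ()) (n / m) m univ (by
    have := Nat.mul_div_le n m
    simp only [Fintype.card_unique, Finset.card_univ, ← hn]
    nlinarith)
  have d2 : (n : ℝ) ≤ m * ((n / m : ℕ) + 1) := by exact_mod_cast (Nat.lt_mul_div_succ n hm).le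
  let E : Fin (q + 1) → Finset V → Prop := fun j e => e ∈ H ∧ c e = j
  obtain ⟨J, _, C', L, N, e1, e2, e3, e4, e5⟩ := h V (Fin m)
    (fun j (v : Fin r → V) => E j (univ.image v)) C (n / m) (by simp) hC (by
      rw [Nat.le_div_iff_mul_le hm]
      have : (L0 : ℝ) * m ≤ n := by nlinarith
      exact_mod_cast this) (by
      have : en (fun j (v : Fin r → V) => E j (univ.image v)) C ≤ m ^ r * (q + 1) := by
        refine (Finset.sum_le_card_nsmul _ _ (q + 1) fun τ _ =>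
          (Finset.card_le_univ _).trans (by simp)).trans ?_
        simp
      have h2 : (en (fun j (v : Fin r → V) => E j (univ.image v)) C : ℝ) ≤ m ^ r * (q + 1) := by
        exact_mod_cast this
      have := mul_le_mul_of_nonneg_left hk.le (show (0 : ℝ) ≤ m ^ r by positivity)
      linarith)
  have b1 : 1 - γ ≤ (1 - θ) ^ k := by
    have := one_add_mul_le_pow (a := -θ) (by linarith) k
    rw [← sub_eq_add_neg] at this
    nlinarith
  have b2 : (1 - γ) * ((1 - γ) * n) ≤ m * (N * L) := by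
    have u1 : (1 - γ) * n ≤ m * (n / m : ℕ) := by nlinarith
    have u2 : (1 - γ) * (n / m : ℕ) ≤ N * L :=
      (mul_le_mul_of_nonneg_right b1 (by positivity)).trans e4
    have := mul_le_mul_of_nonneg_left u1 (show 0 ≤ 1 - γ by linarith)
    have := mul_le_mul_of_nonneg_left u2 (show (0 : ℝ) ≤ m by linarith)
    linarith
  have b3 : (s : ℝ) ≤ γ * L := by
    have u1 : (N : ℝ) ≤ B + 1 := by exact_mod_cast e2.trans (Nat.le_succ B)
    have u2 : (n : ℝ) ≤ 4 * m * (B + 1) * L := by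
      have := mul_le_mul_of_nonneg_left u1 (show (0 : ℝ) ≤ m * L by positivity)
      have h5 : (0 : ℝ) ≤ ((1 - γ) * (1 - γ) - 1 / 4) * n := mul_nonneg (by nlinarith) n0
      linarith
    have := mul_le_mul_of_nonneg_left u2 hγ.le
    exact le_of_mul_le_mul_right (a := (4 * m * (B + 1) : ℝ)) (by linarith) (by positivity)
  have L1 : (0 : ℝ) ≤ L := by positivity
  have N0 : N ≠ 0 := by
    rintro rfl
    have : 0 < γ * n := lt_of_lt_of_le (by positivity) w2
    have n1 : (0 : ℝ) < n := (mul_pos_iff_of_pos_left hγ).1 this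
    have : 0 < (1 - γ) * ((1 - γ) * n) := mul_pos (by linarith) (mul_pos (by linarith) n1)
    simp at b2
    linarith
  have : NeZero N := ⟨N0⟩
  let e : Fin m × ZMod N ≃ J := Fintype.equivOfCardEq (by simp [e1])
  have cl : ⌈γ * L⌉₊ ≤ L := Nat.ceil_le.2 (by nlinarith)
  obtain ⟨c', hc'⟩ := sample (r := r) E
    (fun j e he => Finset.card_pos.1 (by rw [hH e he.1]; exact hr)) (γ * L) L (L - ⌈γ * L⌉₊)
    (fun z => C' (e z)) ⟨fun _ => e3.1 _, fun _ _ h => e3.2 _ _ (e.injective.ne h)⟩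
    (by rw [Nat.cast_sub cl]; linarith [Nat.le_ceil (γ * L)])
    (by
      have : nb (fun j (v : Fin r → V) => E j (univ.image v)) (γ * L) (fun z => C' (e z)) =
          nb (fun j (v : Fin r → V) => E j (univ.image v)) (γ * L) C' :=
        Finset.card_equiv (Equiv.arrowCongr (Equiv.refl _) e) (fun τ => by simp)
      rw [this, ZMod.card]
      have u : η * (m * N) ^ r * 4 = N ^ r := by rw [hη, mul_pow]; field_simp
      linarith)
    (fun A a1 a2 => by
      obtain ⟨f, f1, v, v1, v2⟩ := hc A a2 (fun i => by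
        rw [a1]
        have : (s : ℝ) ≤ L := by nlinarith
        exact_mod_cast this)
      have : univ.image v = f := by
        rw [← Finset.coe_inj, v2]; simp
      exact ⟨c f, v, v1, by simp only [this]; exact ⟨f1, rfl⟩⟩)
    t ht lam l0 l1
  refine ⟨c', fun j p hp hM => ?_⟩
  have u := hc' j p hp hM
  rw [ZMod.card, Nat.cast_sub cl] at u
  have t0 : (0 : ℝ) ≤ t j * m := by positivity
  rcases le_or_gt ((p : ℝ) - lam) 0 with z | z
  · exact (mul_nonpos_of_nonneg_of_nonpos (mul_nonneg (by linarith) n0) z).trans t0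
  have u1 : (1 - 2 * γ) * L ≤ L - ⌈γ * L⌉₊ := by
    linarith [Nat.ceil_lt_add_one (show 0 ≤ γ * L by positivity)]
  have u2 : (1 - 4 * γ) * n ≤ (L - ⌈γ * L⌉₊) * N * m := by
    have a1 := mul_le_mul_of_nonneg_right u1 (show (0 : ℝ) ≤ N * m by positivity)
    have a2 := mul_le_mul_of_nonneg_left b2 (show 0 ≤ 1 - 2 * γ by linarith)
    have a3 : (0 : ℝ) ≤ ((1 - 2 * γ) * (1 - γ) * (1 - γ) - (1 - 4 * γ)) * n :=
      mul_nonneg (by nlinarith [sq_nonneg γ]) n0
    linarith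
  have a1 := mul_le_mul_of_nonneg_right u2 z.le
  have a2 := mul_le_mul_of_nonneg_right u (show (0 : ℝ) ≤ m by linarith)
  linarith

theorem transfer_all (q r : ℕ) (hr : 1 ≤ r) {γ : ℝ} (hγ : 0 < γ) (hγ1 : γ ≤ 1 / 4) (M : ℕ) :
    ∃ δ > 0, ∀ m, 1 ≤ m → m ≤ M → TrP q r m γ δ := by
  induction M with
  | zero => exact ⟨1, one_pos, fun m _ _ => by omega⟩
  | succ M ih =>
    obtain ⟨δ, h0, h⟩ := ih
    obtain ⟨δ', h0', h'⟩ := transfer q r (M + 1) hr (by omega) hγ hγ1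
    refine ⟨min δ δ', lt_min h0 h0', fun m h1 h2 => ?_⟩
    rcases Nat.lt_or_ge m (M + 1) with h3 | h3
    · exact (h m h1 (by omega)).anti (min_le_left _ _)
    · obtain rfl : m = M + 1 := by omega
      exact h'.anti (min_le_right _ _)

def Ok (q r : ℕ) (ε x : ℝ) : Prop :=
  ∀ (V : Type) [Fintype V] (H : Finset (Finset V)) (s : ℕ) (t : Fin q → ℕ), 1 ≤ s →
    s ≤ x * Fintype.card V → (∀ j, 1 ≤ t j) →
    ((r : ℝ) - 1) * (univ.sup t : ℕ) + ∑ j, ((t j : ℝ) - 1) + 1 + Fintype.card V * ε ≤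
      Fintype.card V → (∀ e ∈ H, e.card = r) → IsConnector r s H → Arrows H t

theorem core (q r : ℕ) (hr : 2 ≤ r) {ε : ℝ} (hε : 0 < ε) (hε1 : ε ≤ 1) :
    ∃ δ > 0, Ok (q + 1) r ε δ := by
  have r2 : (2 : ℝ) ≤ r := by exact_mod_cast hr
  have q0 : (0 : ℝ) ≤ q := by positivity
  set ω : ℝ := ε / (4 * (2 * r + q + 1)) with hω
  have ω0 : 0 < ω := by positivity
  have ω1 : ω * (4 * (2 * r + q + 1)) = ε := by rw [hω]; field_simp
  have ω2 : ω ≤ 1 := by nlinarith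
  obtain ⟨a, ha⟩ := pow_unbounded_of_one_lt (3 * (8 * (q + 1) / ω ^ 2 + 1)) (one_lt_two (α := ℝ))
  obtain ⟨δ, h0, h⟩ := transfer_all q r (by omega) (γ := ε / 32) (by positivity) (by linarith)
    ⌊(2 : ℝ) ^ a / ω⌋₊
  refine ⟨min δ (ε / (2 * (q + 1))), lt_min h0 (by positivity), ?_⟩
  intro V _ H s t s1 s2 t1 hn hH hc c
  by_contra hno
  set n : ℝ := (Fintype.card V : ℝ) with hn'
  set T : ℕ := univ.sup t with hT
  have s1' : (1 : ℝ) ≤ s := by exact_mod_cast s1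
  have n0' : 0 ≤ n := by positivity
  have n1 : 2 * (q + 1) ≤ ε * n := by
    have := s1'.trans (s2.trans (mul_le_mul_of_nonneg_right (min_le_right _ _) n0'))
    rwa [div_mul_eq_mul_div, le_div_iff₀ (by positivity), one_mul] at this
  have n0 : 0 < n := by
    by_contra hh
    rw [le_antisymm (not_lt.1 hh) n0'] at n1
    linarith
  have sm : ∑ j, ((t j : ℝ) - 1) = ∑ j, (t j : ℝ) - (q + 1) := by
    rw [Finset.sum_sub_distrib]; simp
  have sm0 : 0 ≤ ∑ j, ((t j : ℝ) - 1) := Finset.sum_nonneg fun j _ => by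
    have : (1 : ℝ) ≤ t j := by exact_mod_cast t1 j
    linarith
  have T0 : (0 : ℝ) ≤ T := by positivity
  have Tn : (T : ℝ) ≤ n := by nlinarith
  have tT : ∀ j, (t j : ℝ) ≤ T := fun j => by
    exact_mod_cast Finset.le_sup (f := t) (Finset.mem_univ j)
  set u : ℝ := (1 + ε / 4) / n with hu
  have u0 : 0 < u := by positivity
  have u1 : u * n = 1 + ε / 4 := by rw [hu]; field_simp
  set z : ℝ := u * T + ω with hz
  have z0 : ω ≤ z := by have := mul_nonneg u0.le T0; linarith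
  have z1 : z ≤ 3 := by have := mul_le_mul_of_nonneg_left Tn u0.le; linarith
  have zp : 0 < z := by linarith
  set m : ℕ := ⌊(2 : ℝ) ^ a / z⌋₊ with hm
  have m1 : (m : ℝ) * z ≤ 2 ^ a := by
    rw [← le_div_iff₀ zp]; exact Nat.floor_le (by positivity)
  have m2 : (2 : ℝ) ^ a < (m + 1) * z := by
    rw [← div_lt_iff₀ zp]; exact Nat.lt_floor_add_one _
  have m0 : (0 : ℝ) ≤ m := by positivity
  have m3 : 8 * (q + 1) ≤ m * ω ^ 2 := by
    rw [← div_le_iff₀ (by positivity)]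
    nlinarith
  have m4 : 8 ≤ m * ω := by
    have : m * ω ^ 2 ≤ m * ω := mul_le_mul_of_nonneg_left (by nlinarith) m0
    linarith
  have m5 : 1 ≤ m := by
    rcases Nat.eq_zero_or_pos m with e | e
    · rw [e] at m4; norm_num at m4
    · exact e
  obtain ⟨c', hc'⟩ := h m m5 (Nat.floor_le_floor (div_le_div_of_nonneg_left (by positivity) ω0 z0))
    V H c s s1 (s2.trans (mul_le_mul_of_nonneg_right (min_le_left _ _) n0')) hH hc t
    (fun j ⟨M, a1, a2, a3⟩ => hno ⟨j, M, fun e he => (a2 e he).1.1, a1,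
      fun e he => (a2 e he).1.2, a3⟩) (m * ω / 2) (by linarith) (by nlinarith)
  let y : Fin (q + 1) → ℝ := fun j => m * ω / 2 + u * t j * m
  have y0 : ∀ j, 0 ≤ y j := fun j => by positivity
  have k1 : ∀ j, ⌊y j⌋₊ + 1 ≤ 2 ^ a := by
    intro j
    have a1 := Nat.floor_le (y0 j)
    have a2 := mul_le_mul_of_nonneg_left (tT j) (mul_nonneg u0.le m0)
    have : (⌊y j⌋₊ : ℝ) + 1 ≤ 2 ^ a := by simp only [y] at a1 ⊢; nlinarith
    exact_mod_cast this
  have k2 : (r - 1) * 2 ^ a + ∑ j, ⌊y j⌋₊ + 1 ≤ m := by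
    have a1 : ∑ j, (⌊y j⌋₊ : ℝ) ≤ (q + 1) * (m * ω / 2) + u * m * ∑ j, (t j : ℝ) := by
      refine (Finset.sum_le_sum fun j _ => Nat.floor_le (y0 j)).trans (le_of_eq ?_)
      simp only [y]
      rw [Finset.sum_add_distrib, Finset.mul_sum]
      congr 1
      · simp
      · exact Finset.sum_congr rfl fun j _ => by ring
    have a2 : ((r : ℝ) - 1) * 2 ^ a ≤ (r - 1) * (m * (u * T) + 2 * (m * ω)) :=
      mul_le_mul_of_nonneg_left (by nlinarith) (by linarith)
    have a3 : ((r : ℝ) - 1) * T + ∑ j, (t j : ℝ) ≤ (1 - ε / 2) * n := by linarith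
    have a4 := mul_le_mul_of_nonneg_left a3 (mul_nonneg u0.le m0)
    have a5 : u * m * ((1 - ε / 2) * n) ≤ m * (1 - ε / 4) := by
      have : u * m * ((1 - ε / 2) * n) = m * ((1 + ε / 4) * (1 - ε / 2)) := by rw [← u1]; ring
      rw [this]
      exact mul_le_mul_of_nonneg_left (by nlinarith) m0
    have a6 : m * ε = m * ω * (4 * (2 * r + q + 1)) := by rw [← ω1]; ring
    have a7 : 0 ≤ m * ω * q := by positivity
    have : ((r : ℝ) - 1) * 2 ^ a + ∑ j, (⌊y j⌋₊ : ℝ) + 1 ≤ m := by linarith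
    have e : ((r - 1 : ℕ) : ℝ) = r - 1 := by rw [Nat.cast_sub (by omega)]; simp
    rw [← e] at this
    exact_mod_cast this
  obtain ⟨j, hj⟩ := afl_asym q a r m (by omega) (fun j => ⌊y j⌋₊) k1 k2 c'
  have k3 := hc' j _ (by
    have := k1 j
    have : 1 * 2 ^ a ≤ (r - 1) * 2 ^ a := Nat.mul_le_mul_right _ (by omega)
    omega) hj
  have k4 := Nat.lt_floor_add_one (y j)
  have k5 : u * t j * m < ((⌊y j⌋₊ + 1 : ℕ) : ℝ) - m * ω / 2 := by
    push_cast; simp only [y] at k4 ⊢; linarith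
  have k6 := mul_lt_mul_of_pos_left k5 (show 0 < (1 - 4 * (ε / 32)) * n from
    mul_pos (by linarith) n0)
  have k7 : (1 - 4 * (ε / 32)) * n * (u * t j * m) =
      ((1 - ε / 8) * (1 + ε / 4)) * (t j * m) := by rw [← u1]; ring
  have k8 : (1 : ℝ) * (t j * m) ≤ ((1 - ε / 8) * (1 + ε / 4)) * (t j * m) :=
    mul_le_mul_of_nonneg_right (by nlinarith) (by positivity)
  linarith

theorem Ok.mono {q r : ℕ} {ε ε' x x' : ℝ} (h : Ok q r ε x) (h1 : ε ≤ ε') (h2 : x' ≤ x) :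
    Ok q r ε' x' := fun V _ H s t a b c d => h V H s t a
  (b.trans (mul_le_mul_of_nonneg_right h2 (Nat.cast_nonneg _))) c
  (le_trans (add_le_add le_rfl (mul_le_mul_of_nonneg_left h1 (Nat.cast_nonneg _))) d)

theorem Ok.one (q r : ℕ) (hr : 2 ≤ r) (x : ℝ) : Ok q r 1 x := by
  intro V _ H s t _ _ c d
  have r2 : (2 : ℝ) ≤ r := by exact_mod_cast hr
  have sm0 : 0 ≤ ∑ j, ((t j : ℝ) - 1) := Finset.sum_nonneg fun j _ => by
    have : (1 : ℝ) ≤ t j := by exact_mod_cast c j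
    linarith
  have : (0 : ℝ) ≤ ((r : ℝ) - 1) * (univ.sup t : ℕ) := mul_nonneg (by linarith) (by positivity)
  linarith

theorem main (q r : ℕ) (hq : 1 ≤ q) (hr : 2 ≤ r) : ∃ φ : ℝ → ℝ, (∀ x, 0 < x → 0 < φ x) ∧
    Tendsto φ (𝓝[>] 0) (𝓝 0) ∧ ∀ x, 0 < x → Ok q r (φ x) x := by
  obtain ⟨q, rfl⟩ : ∃ q', q = q' + 1 := ⟨q - 1, by omega⟩
  let S : ℝ → Set ℝ := fun x => {ε | 0 ≤ ε ∧ Ok (q + 1) r ε x}
  have ne : ∀ x, (S x).Nonempty := fun x => ⟨1, zero_le_one, Ok.one _ _ hr x⟩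
  have bd : ∀ x, BddBelow (S x) := fun x => ⟨0, fun _ h => h.1⟩
  have nn : ∀ x, 0 ≤ sInf (S x) := fun x => le_csInf (ne x) fun _ h => h.1
  refine ⟨fun x => sInf (S x) + x, fun x hx => by linarith [nn x], ?_, fun x hx => ?_⟩
  · rw [Metric.tendsto_nhdsWithin_nhds]
    intro ε hε
    obtain ⟨δ, h0, h⟩ := core q r hr (ε := min (ε / 2) 1) (by positivity) (min_le_right _ _)
    refine ⟨min δ (ε / 2), by positivity, fun x hx hd => ?_⟩
    have hx' : 0 < x := hx
    rw [Real.dist_eq, sub_zero, abs_of_pos hx', lt_min_iff] at hd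
    have : sInf (S x) ≤ ε / 2 :=
      csInf_le (bd x) ⟨by positivity, h.mono (min_le_left _ _) hd.1.le⟩
    rw [Real.dist_eq, sub_zero, abs_of_pos (by linarith [nn x])]
    linarith
  · obtain ⟨ε, h1, h2⟩ := exists_lt_of_csInf_lt (ne x) (show sInf (S x) < sInf (S x) + x by linarith)
    exact h1.2.mono h2.le le_rfl

end Pool.Agent.H.MP_d738f8_co
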